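import Pool.Agent.V8H87.GG.Alg

/-!
# Kimura finite-dimensionality and the growth of the algebras of permutations

Let `X` be a smooth projective complex variety, `b` its total Betti number, and let `P n (X)` be the
space of cycles on `X ^ n × X ^ n`, modulo rational equivalence and with rational coefficients,
which is spanned by the `n!` graphs of the permutations of the `n` factors of `X ^ n`.

Theorem.
* If the Chow motive `h(X)` is finite-dimensional in the sense of Kimura, then the even part of the
  diagonal of `X` is algebraic (the sign conjecture `C⁺ (X)`) and `dim P n (X) ≤ b ^ (2 n)` for all
  `n`.
* If `C⁺ (X)` holds and `h(X)` is not finite-dimensional in the sense of Kimura, then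
  `dim P n (X) ≥ r ^ (2 n)` for each real number `r < b + 2` and all large `n`.

So, for each `X` which satisfies the sign conjecture, Kimura's conjecture is a statement about the
dimensions of the spaces `P n (X)` only: `X` is Kimura finite-dimensional if and only if
`dim P n (X) ≤ r ^ (2 n)` for infinitely many `n` and some `r < b + 2`, and if and only if
`dim P n (X) ≤ b ^ (2 n)` for all `n`; there is nothing between `b` and `b + 2`. In particular it
suffices that the Chow groups (or the tautological rings which contain the permutations, as for the
quintic threefold) of infinitely many powers `X ^ (2 n)` have dimension at most `r ^ (2 n)` with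
`r < b + 2`.

The setting. `C` is a pseudo-abelian rigid symmetric monoidal `ℚ`-linear category with `End 𝟙 = ℚ`,
such as the category of Chow motives over `ℂ`, and `R` a realisation of `C` in super vector spaces of
finite dimension, such as the Betti cohomology; `bt R M` is the dimension of the realisation of `M`.
`tp M n` is the `n`-th tensor power of `M` and `permAlg M n` the subalgebra of its endomorphism
algebra which is generated by the exchanges of two neighbouring factors; for `M = h(X)` this
is the space `P n (X)`. The theorem holds for each object `M`.

Steps of the proof. (1) Let `m` and `m'` be the dimensions of the even and the odd part of the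
realisation. If the Young symmetrizer of the rectangle with `m + 1` rows and `m' + 1` columns is
zero on `M`, then its contractions against a lift of the even projector give an idempotent `e` such
that the exterior power `m + 1` of `(M, e)` and the symmetric power `m' + 1` of `(M, 1 - e)` vanish.
(2) If it is not zero, then no diagram which contains this rectangle and lies in the hook with
`m + 1` rows and `m' + 1` columns becomes zero on `M`: partial traces remove the boxes outside the
rectangle one by one, each time with a non-zero rational factor, since the trace of the identity is
`m - m'`. The products of permutations with the symmetrizers of these diagrams give linearly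
independent elements, indexed by pairs of words in `m + m' + 2` letters up to a polynomial factor. (3) For the upper bound a permutation
is rewritten, in each type `e ⊗ (1 - e) ⊗ ...`, modulo the relations of step (1), as a combination
of permutations without long monotone chains, whose number is at most `(m + m') ^ (2 n)`.
-/

set_option autoImplicit false

open CategoryTheory MonoidalCategory Module
open Pool.Agent.Y112.SR Pool.Agent.Y112.KD Pool.Agent.N64.AF
open Pool.Agent.R905 (IsKimuraFinite)

namespace Pool.Agent.Results.MP_868bb7_ag.GrowthGap

universe v u w

/-- Kimura finite-dimensionality is decided by the growth of the algebras of permutations. -/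
theorem result {C : Type u} [Category.{v} C] [MonoidalCategory C] [SymmetricCategory C]
    [Preadditive C] [Linear ℚ C] [MonoidalPreadditive C] [MonoidalLinear ℚ C]
    [RightRigidCategory C] [IsIdempotentComplete C] (hU : UnitQ C)
    {K : Type w} [Field K] (R : SuperRealisation C K) (M : C) :
    (IsKimuraFinite M →
      R.CPlus M ∧ ∀ n : ℕ, finrank ℚ (Pool.Agent.V8H87.GG.permAlg M n) ≤ bt R M ^ (2 * n)) ∧
    (R.CPlus M → ¬ IsKimuraFinite M → ∀ r : ℝ, 0 ≤ r → r < bt R M + 2 → ∃ n0 : ℕ, ∀ n ≥ n0,
      r ^ (2 * n) ≤ finrank ℚ (Pool.Agent.V8H87.GG.permAlg M n)) :=
  Pool.Agent.V8H87.GG.growth_gap R hU M

end Pool.Agent.Results.MP_868bb7_ag.GrowthGap
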