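import Pool.Agent.V8H76.Dg.Thm

/-!
# Kimura's conjecture modulo degenerate correspondences

A correspondence of degree zero of a smooth projective variety `X` of dimension `d` with itself is
called degenerate if it is a sum of cycles supported on `D × X` or on `X × D`, `D` of dimension smaller
than `d`, and more generally if it factors, as an endomorphism of the Chow motive `h(X)`, through a sum
of twisted motives of varieties of dimension smaller than `d`. The quotient of the ring of
correspondences by the ideal of the degenerate ones is a quotient of the group of zero-cycles on the
variety `X` over its own function field; for a surface `X` it is the endomorphism ring of the
transcendental part of `h(X)`.

Theorem. The following are equivalent.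

1. All `X` are finite-dimensional in the sense of Kimura.
2. The sign conjecture `C⁺` holds for all `X`; and for all `X` of dimension `d ≥ 2` each homologically
   trivial endomorphism of `h(X)` has a power which is degenerate.
3. For all `X` the projector to the even part of the cohomology is the class of an idempotent of
   `End h(X)`; and for all `X` of dimension `d ≥ 2` each homologically trivial endomorphism of `h(X)`
   which is idempotent modulo degenerate ones is degenerate.

So, up to the sign conjecture (in the form of 2 or 3), the conjecture of Kimura is a statement on the
zero-cycles at the generic points: instead of the nilpotence of the homologically trivial correspondences,
it suffices to know it modulo degenerate ones, and instead of the nilpotence it suffices that there is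
no homologically trivial idempotent modulo degenerate ones. For a surface with `p_g = q = 0` the second
condition of 3 for the diagonal is the conjecture of Bloch; 3 says that the analogue of this conjecture for
all idempotents in all dimensions is what is needed.

The setting. `C` is the category of Chow motives over `ℂ` with rational coefficients: a
pseudo-abelian rigid symmetric monoidal `ℚ`-linear category with direct sums; `R` is the Betti
cohomology with the grading by parity; `V d a` is the class of the objects `h(X)(a)` for smooth
projective `X`, not necessarily connected, all components having dimension `d`; `IsVarieties` contains
the formal properties of these classes, including the theorem of Kimura for curves. All conditions for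
`h(X)(a)` are independent of the twist `a`. (The theorem holds for any class of smooth projective
varieties over any field which has these properties.)

Proof. Let `M` be a sum of twisted motives of varieties of dimension at most `d`. Modulo degenerate
morphisms, `M` is a sum of motives `h(X_a)(a)`, `X_a` of dimension `d`, and the morphisms from the
summand `a` to the summand `b` vanish for `a < b`; so the endomorphisms are block triangular, and the
conditions on the diagonal blocks imply the same for `M`. A homologically trivial endomorphism of `M`
which factors through `L` (a sum of motives of varieties of dimension smaller than `d`) leads to one of
`L`, and induction on `d` gives the nilpotence, respectively the vanishing of all homologically trivial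
idempotents. This is applied to the powers of `X`: the exterior powers of the even part and the
symmetric powers of the odd part of `h(X)`.
-/

set_option autoImplicit false

open CategoryTheory Limits MonoidalCategory
open Pool.Agent.Y112.SR Pool.Agent.R905 Pool.Agent.N64.AF Pool.Agent.V8H76.Dg

namespace Pool.Agent.Results.MP_868bb7_ag.ModuloDegenerate

universe v u w

/-- Kimura's conjecture is equivalent to the sign conjecture together with nilpotence modulo
degenerate correspondences, and to the splitting of the even part together with the absence of
homologically trivial idempotents modulo degenerate correspondences. -/
theorem result {C : Type u} [Category.{v} C] [Preadditive C] [Linear ℚ C] [MonoidalCategory C]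
    [MonoidalPreadditive C] [MonoidalLinear ℚ C] [SymmetricCategory C] [RightRigidCategory C]
    [IsIdempotentComplete C] [HasBinaryBiproducts C] {K : Type w} [Field K] [Algebra ℚ K]
    (R : SuperRealisation C K) (hR : IsReal ℚ R) (V : ℕ → ℤ → C → Prop) (hV : IsVarieties V) :
    [KimuraConjecture V, SignAndNilpotent R V, SplitAndNoPhantoms R V].TFAE :=
  kimura_tfae hR hV

end Pool.Agent.Results.MP_868bb7_ag.ModuloDegenerate
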