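import Pool.Agent.V8H93.QI.Sum
import Pool.Agent.V8H93.QI.Fpf
import Pool.Agent.V8H93.QI.Abl
import Pool.Agent.V8H93.QI.Gen

/-!
# MP_868bb7_ag: when Kimura finite-dimensionality can be tested on quotients by subgroups

Let a finite group `G` act on a smooth projective variety `X` and let `𝓗` be a set of subgroups of
`G`. The motive of `X / H` is the direct summand `h(X) ^ H` of `h(X)`. We determine for which `G` and
`𝓗` the following principle holds for formal reasons: `X` is Kimura finite-dimensional if and only if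
`X / H` is for all `H` in `𝓗`. This is the case if and only if every nonzero representation of `G`
over `ℚ` has a nonzero vector fixed by some member of `𝓗` (`HasFixed G 𝓗`).

* For every finite group `G` this holds for the set of all subgroups `H` such that in the group
  `N_G(H) / H` all subgroups of order `p q` (`p`, `q` primes, possibly equal) are cyclic; for a
  `p`-group these are the `H` with `N_G(H) / H` cyclic or generalised quaternion.
* If `G` contains a noncyclic subgroup of order `p q`, then it holds for the set of its subgroups of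
  prime order. So if `X` is a counterexample to Kimura's conjecture and all quotients of `X` by
  nontrivial subgroups of `G` are finite-dimensional, then all subgroups of order `p q` of `G` are
  cyclic (as for groups which act freely on spheres).
* For the group generated by one involution `t` the principle holds if and only if `t` is in the
  normal subgroup generated by the commutators `g t g⁻¹ t⁻¹`, for instance if `G` is a nonabelian
  simple group, or if `t` is a double transposition in a subgroup `A₄` of `G`.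
* For abelian `G` the principle holds if and only if each subgroup with cyclic quotient contains a
  member of `𝓗`.

The setting is a pseudo-abelian rigid symmetric monoidal `ℚ`-linear category with direct sums and
`End 𝟙 = ℚ` (Chow motives) with a realisation in super vector spaces.
-/

set_option autoImplicit false

open CategoryTheory Limits MonoidalCategory
open Pool.Agent.Y112.SR Pool.Agent.Y112.KD Pool.Agent.R905

namespace Pool.Agent.Results.MP_868bb7_ag.QuotientPrinciple

universe v u w

/-- Every nonzero representation of `G` over `ℚ` has a nonzero vector fixed by a member of `𝓗`. -/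
def HasFixed (G : Type) [Group G] (𝓗 : Set (Subgroup G)) : Prop :=
  ∀ (V : Type) [AddCommGroup V] [Module ℚ V] (π : Representation ℚ G V), Nontrivial V →
    ∃ H ∈ 𝓗, ∃ v : V, v ≠ 0 ∧ ∀ h ∈ H, π h v = v

/-- The normal subgroup generated by the commutators `g t g⁻¹ t⁻¹`. -/
def CommWith {G : Type} [Group G] (t : G) : Subgroup G :=
  Subgroup.normalClosure {x | ∃ g : G, x = g * t * g⁻¹ * t⁻¹}

/-- In `W` every subgroup whose elements other than the identity have prime order is cyclic; in
particular, all subgroups of order `p q`, `p` and `q` primes, are cyclic. -/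
def PQ (W : Type) [Group W] : Prop :=
  ∀ K : Subgroup W, (∀ k ∈ K, k ≠ 1 → (orderOf k).Prime) → IsCyclic K

/-- The quotient `N_G(H) / H`. -/
abbrev Weyl {G : Type} [Group G] (H : Subgroup G) : Type :=
  Subgroup.normalizer (H : Set G) ⧸ H.subgroupOf (Subgroup.normalizer (H : Set G))

open Classical in
/-- The sum of the elements of `H` in the group algebra. -/
noncomputable def sumOf {G : Type} [Group G] [Fintype G] (H : Subgroup G) : MonoidAlgebra ℚ G :=
  ∑ h ∈ Finset.univ.filter (· ∈ H), MonoidAlgebra.of ℚ G h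

section

variable {C : Type u} [Category.{v} C] [Preadditive C] [Linear ℚ C]

open Classical in
/-- `P` is the direct summand `M ^ H` of `M`: the image of the mean of the `ρ h`, `h ∈ H`. For a
group acting on a variety `X` and `M = h(X)` this is the motive of `X / H`. -/
def IsInv {G : Type} [Group G] [Fintype G] {M : C} (ρ : G →* End M) (H : Subgroup G) (P : C) :
    Prop :=
  ∃ (i : P ⟶ M) (r : M ⟶ P), i ≫ r = 𝟙 P ∧
    r ≫ i = (Nat.card H : ℚ)⁻¹ • ∑ h ∈ Finset.univ.filter (· ∈ H), (ρ h : M ⟶ M)

/-- `P` is the direct summand of `M` cut out by the idempotent `c` of `ℚ[G]`. -/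
def IsPart {G : Type} [Group G] {M : C} (ρ : G →* End M) (c : MonoidAlgebra ℚ G) (P : C) : Prop :=
  ∃ (i : P ⟶ M) (r : M ⟶ P), i ≫ r = 𝟙 P ∧
    r ≫ i = (MonoidAlgebra.lift ℚ (End M) G ρ c : M ⟶ M)

/-- The class `Pr` of objects contains the zero objects and is closed under direct sums and direct
summands. -/
structure Closed [HasBinaryBiproducts C] (Pr : C → Prop) : Prop where
  zero : ∀ M : C, 𝟙 M = 0 → Pr M
  sum : ∀ M N : C, Pr M → Pr N → Pr (M ⊞ N)
  summand : ∀ (M P : C) (i : P ⟶ M) (r : M ⟶ P), i ≫ r = 𝟙 P → Pr M → Pr P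

end

/-- **The quotient principle for Kimura finite-dimensional motives.**
(0) The Kimura finite-dimensional objects form a closed class (Kimura).
(1) For all finite groups `G` and all sets `𝓗` of subgroups there is an idempotent `c` of `ℚ[G]`
without vectors fixed by a member of `𝓗`, such that for all closed classes `Pr`, for instance the
Kimura finite-dimensional objects, and for all actions of `G` on an object `M`: `M` is in `Pr` if and
only if all `M ^ H`, `H ∈ 𝓗`, and the part `(M, c)` are; and `c = 0` if and only if `HasFixed G 𝓗`.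
(1') If `HasFixed G 𝓗`, then `M` is in `Pr` if and only if all `M ^ H`, `H ∈ 𝓗`, are.
(2) If not, and if some object is not Kimura finite-dimensional, there is an action of `G` on an
object `M` which is not Kimura finite-dimensional, although `M ^ H = 0` for all `H ∈ 𝓗`.
(3) For every finite group the subgroups `H` with `PQ (N_G(H) / H)` suffice.
(4) If a subgroup `K` of order `p q` is not cyclic, its subgroups of prime order suffice.
(5) If `M` is not Kimura finite-dimensional but all `M ^ H`, `H ≠ 1`, are, then `PQ G`.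
(6) One involution `t` suffices if and only if `t` is in the normal subgroup generated by the
commutators `g t g⁻¹ t⁻¹`.
(7) This is the case if `G` is a nonabelian simple group, and if `t` is the image of a double
transposition under a homomorphism from `A₄`.
(8) If `G` is abelian, `𝓗` suffices if and only if each subgroup with cyclic quotient contains a
member of `𝓗`. -/
theorem result {C : Type u} [Category.{v} C] [Preadditive C] [Linear ℚ C] [MonoidalCategory C]
    [MonoidalPreadditive C] [MonoidalLinear ℚ C] [SymmetricCategory C] [RightRigidCategory C]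
    [IsIdempotentComplete C] [HasBinaryBiproducts C] [HasFiniteBiproducts C] (hU : UnitQ C)
    {K : Type w} [Field K] (R : SuperRealisation C K) :
    Closed (fun M : C => IsKimuraFinite M) ∧
    (∀ (G : Type) [Group G] [Fintype G],
      (∀ 𝓗 : Set (Subgroup G), ∃ c : MonoidAlgebra ℚ G, c * c = c ∧
        (∀ H ∈ 𝓗, sumOf H * c = 0) ∧ (c = 0 ↔ HasFixed G 𝓗) ∧
        ∀ Pr : C → Prop, Closed Pr → ∀ (M : C) (ρ : G →* End M),
          Pr M ↔ (∀ H ∈ 𝓗, ∀ P, IsInv ρ H P → Pr P) ∧ ∀ P, IsPart ρ c P → Pr P) ∧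
      (∀ 𝓗 : Set (Subgroup G), HasFixed G 𝓗 → ∀ Pr : C → Prop, Closed Pr →
        ∀ (M : C) (ρ : G →* End M), Pr M ↔ ∀ H ∈ 𝓗, ∀ P, IsInv ρ H P → Pr P) ∧
      (∀ 𝓗 : Set (Subgroup G), ¬ HasFixed G 𝓗 → (∃ M₀ : C, ¬ IsKimuraFinite M₀) →
        ∃ (M : C) (ρ : G →* End M), (∀ H ∈ 𝓗, ∀ P, IsInv ρ H P → 𝟙 P = 0) ∧
          ¬ IsKimuraFinite M) ∧
      HasFixed G {H | PQ (Weyl H)} ∧
      (∀ (H : Subgroup G) (p q : ℕ), p.Prime → q.Prime → Nat.card H = p * q → ¬ IsCyclic H →
        HasFixed G {L | L ≤ H ∧ (Nat.card L).Prime}) ∧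
      (∀ (M : C) (ρ : G →* End M), ¬ IsKimuraFinite M →
        (∀ H : Subgroup G, H ≠ ⊥ → ∀ P, IsInv ρ H P → IsKimuraFinite P) → PQ G) ∧
      (∀ t : G, t * t = 1 → (HasFixed G {Subgroup.zpowers t} ↔ t ∈ CommWith t)) ∧
      (∀ t : G, t ≠ 1 → IsSimpleGroup G → (∃ a b : G, a * b ≠ b * a) → t ∈ CommWith t) ∧
      (∀ (f : alternatingGroup (Fin 4) →* G) (x : alternatingGroup (Fin 4)),
        (x : Equiv.Perm (Fin 4)) = Equiv.swap 0 1 * Equiv.swap 2 3 → f x ∈ CommWith (f x))) ∧
    (∀ (G : Type) [CommGroup G] [Finite G] (𝓗 : Set (Subgroup G)),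
      HasFixed G 𝓗 ↔ ∀ K : Subgroup G, IsCyclic (G ⧸ K) → ∃ H ∈ 𝓗, H ≤ K) := by
  have hcl : Pool.Agent.V8H93.QI.Closed (fun M : C => IsKimuraFinite M) := by
    refine ⟨?_, fun M N hM hN => Pool.Agent.V8H93.QI.kimura_sum R hU hM hN,
      fun M P i r hir hM => hM.retract R hU i r hir⟩
    intro M hM
    refine ⟨0, by rw [zero_comp], ⟨1, ?_⟩, 1, ?_⟩
    · rw [Pool.Agent.V8H93.QI.powerVanishes_iff (by norm_num)]
      have h1 : tpm (0 : M ⟶ M) 1 = 0 := by
        change tpm (0 : M ⟶ M) 0 ⊗ₘ (0 : M ⟶ M) = 0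
        exact MonoidalPreadditive.tensor_zero _
      rw [h1, zero_comp]
    · rw [hM, sub_zero, Pool.Agent.V8H93.QI.powerVanishes_iff (by norm_num)]
      have h1 : tpm (0 : M ⟶ M) 1 = 0 := by
        change tpm (0 : M ⟶ M) 0 ⊗ₘ (0 : M ⟶ M) = 0
        exact MonoidalPreadditive.tensor_zero _
      rw [h1, zero_comp]
  refine ⟨⟨hcl.zero, hcl.sum, hcl.summand⟩, ?_, fun G _ _ 𝓗 =>
    Pool.Agent.V8H93.QI.abelian_iff G 𝓗⟩
  intro G _ _
  have main : ∀ 𝓗 : Set (Subgroup G), HasFixed G 𝓗 → ∀ Pr : C → Prop, Closed Pr →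
      ∀ (M : C) (ρ : G →* End M), Pr M ↔ ∀ H ∈ 𝓗, ∀ P, IsInv ρ H P → Pr P := by
    intro 𝓗 hG Pr hPr M ρ
    constructor
    · rintro hM H _ P ⟨i, r, hir, -⟩
      exact hPr.summand M P i r hir hM
    · intro h
      exact Pool.Agent.V8H93.QI.descent (Pr := Pr) ⟨hPr.zero, hPr.sum, hPr.summand⟩ hG ρ h
  refine ⟨?_, main, ?_, Pool.Agent.V8H93.QI.fixed_general G, ?_, ?_, ?_, ?_, ?_⟩
  · intro 𝓗
    obtain ⟨c, hc, h1, h2⟩ := Pool.Agent.V8H93.QI.exists_fpf 𝓗
    refine ⟨c, hc, fun H hH => h2 _ (Pool.Agent.V8H93.QI.nrm_mem hH),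
      Pool.Agent.V8H93.QI.fpf_zero_iff h1 h2, fun Pr hPr M ρ => ⟨?_, ?_⟩⟩
    · intro hM
      refine ⟨?_, ?_⟩
      · rintro H _ P ⟨i, r, hir, -⟩
        exact hPr.summand M P i r hir hM
      · rintro P ⟨i, r, hir, -⟩
        exact hPr.summand M P i r hir hM
    · rintro ⟨h3, h4⟩
      exact Pool.Agent.V8H93.QI.splitting (Pr := Pr) ⟨hPr.zero, hPr.sum, hPr.summand⟩ hc h1 ρ h3
        (fun P i r hir hri => h4 P ⟨i, r, hir, hri⟩)
  · rintro 𝓗 hG ⟨M₀, hM₀⟩
    exact Pool.Agent.V8H93.QI.sharp hcl hM₀ hG
  · intro H p q hp hq hc hH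
    refine Pool.Agent.V8H93.QI.fixed_prime H hH (fun k hk hk1 => ?_)
    have h1 := Pool.Agent.V8H93.QI.prime_of_card hp hq hc hH ⟨k, hk⟩
      (fun h => hk1 (congrArg Subtype.val h))
    rwa [Subgroup.orderOf_mk] at h1
  · intro M ρ hM h K hK
    by_contra hc
    apply hM
    have h1 := Pool.Agent.V8H93.QI.fixed_prime K hc hK
    refine (main _ h1 (fun M : C => IsKimuraFinite M) ⟨hcl.zero, hcl.sum, hcl.summand⟩ M ρ).2 ?_
    rintro H ⟨-, hH⟩ P hP
    refine h H ?_ P hP
    rintro rfl
    rw [Subgroup.card_bot] at hH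
    exact Nat.not_prime_one hH
  · intro t ht
    exact Pool.Agent.V8H93.QI.involution_iff ht
  · intro t ht hG hab
    exact Pool.Agent.V8H93.QI.comm_simple hab ht
  · intro f x hx
    have h1 : x = Pool.Agent.V8H93.QI.dbl := Subtype.ext hx
    rw [h1]
    exact Pool.Agent.V8H93.QI.comm_map f Pool.Agent.V8H93.QI.comm_dbl

end Pool.Agent.Results.MP_868bb7_ag.QuotientPrinciple
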