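import Pool.Agent.V8H15.BT.Bend
import Pool.Agent.V8H57.BT.Pair
import Pool.Agent.V8H40.BT.Pow
import Pool.Agent.V8H40.BT.Alt
import Pool.Agent.V8H76.BT.Odd
import Pool.Agent.V8H76.BT.Even

/-!
# MP_868bb7_ag: one relation suffices for Kimura finite-dimensionality

Let `M` be an object with a perfect symmetric pairing `b : M ⊗ M ⟶ L` with values in an object `L` of
dimension one, whose realisation is either purely odd, of dimension `2 n > 0`, or purely even, of
dimension `b > 0`; for instance the motive `h ^ d (X)` (or its primitive or transcendental part) of a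
variety of dimension `d` with the intersection pairing. For `h ^ 3` of a smooth quintic threefold
`2 n = 204`; for the transcendental motive of a complex projective K3 surface `b ≤ 21`.

For each perfect matching `x` of `2 k` points the product of `k` pairings along `x` is a morphism
`M ^ (2 k) ⟶ L ^ k`. In the realisation these are linearly dependent if and only if `k ≥ n + 1` (in
the odd case) or `k ≥ b + 1` (in the even case).

We prove: `M` is Kimura finite-dimensional if and only if for some `k < 3 (n + 2)` (odd case) or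
`k < 2 (b + 3)` (even case) there is any nontrivial linear relation whatsoever between the products
of `k` pairings. In the odd case this holds if and only if the sum of all products of `n + 1`
pairings vanishes. So there are no relations other than the cohomological ones in the low degrees,
and either all of these relations hold or none.
-/

set_option autoImplicit false
set_option linter.unusedSectionVars false

open CategoryTheory Limits MonoidalCategory Module Equiv
open Pool.Agent.Y112.SR Pool.Agent.Y112.KD Pool.Agent.R905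

namespace Pool.Agent.Results.MP_868bb7_ag.ZeroOneLaw

universe v u w

/-- The perfect matchings of the set `{0, ..., 2 k - 1}`, as involutions without fixed points. -/
abbrev Matching (k : ℕ) : Type := {x : Perm (Fin (2 * k)) // x * x = 1 ∧ ∀ i, x i ≠ i}

/-- The permutation `σ` of `{0, ..., m - 1}` as a permutation of `{1, ..., m}`. -/
def shift {m : ℕ} (σ : Perm (Fin m)) : Perm (Fin (m + 1)) := Perm.decomposeFin.symm (0, σ)

/-- The matching `(0 1)(2 3)...(m - 2 m - 1)` (for even `m`). -/
def standard : ∀ m : ℕ, Perm (Fin m)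
  | 0 => 1
  | 1 => 1
  | m + 2 => swap 0 1 * shift (shift (standard m))

section

variable {C : Type u} [Category.{v} C] [MonoidalCategory C] [SymmetricCategory C]

/-- A perfect symmetric pairing `b` of `M` with values in `L`: there is a symmetric copairing `c` such
that `L ⊗ M ⟶ M ⊗ M ⊗ M ⟶ M ⊗ L` is the symmetry. -/
structure PerfectPairing (M L : C) where
  b : M ⊗ M ⟶ L
  c : L ⟶ M ⊗ M
  b_symm : (β_ M M).hom ≫ b = b
  c_symm : c ≫ (β_ M M).hom = c
  zig : c ▷ M ≫ (α_ M M M).hom ≫ M ◁ b = (β_ L M).hom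

/-- The tensor power `b ⊗ ⋯ ⊗ b` (`k` factors). -/
def power {M L : C} (b : M ⊗ M ⟶ L) : ∀ k : ℕ, tp M (2 * k) ⟶ tp L k
  | 0 => 𝟙 _
  | k + 1 => ((α_ (tp M (2 * k)) M M).hom ≫ (power b k ⊗ₘ b) :
      (tp M (2 * k) ⊗ M) ⊗ M ⟶ tp L k ⊗ L)

/-- `Permutes M m σ s`: the endomorphism `s` of the tensor power `tp M m` (`m` factors) permutes the
factors by `σ`; the position `0` is the last factor. -/
inductive Permutes (M : C) : ∀ m : ℕ, Perm (Fin m) → (tp M m ⟶ tp M m) → Prop
  | one (m : ℕ) : Permutes M m 1 (𝟙 _)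
  | last (m : ℕ) : Permutes M (m + 2) (swap 0 1) (sw (tp M m) M)
  | lift (m : ℕ) (σ : Perm (Fin m)) (s : tp M m ⟶ tp M m) :
      Permutes M m σ s → Permutes M (m + 1) (shift σ) (s ▷ M)
  | comp (m : ℕ) (σ τ : Perm (Fin m)) (s t : tp M m ⟶ tp M m) :
      Permutes M m σ s → Permutes M m τ t → Permutes M m (σ * τ) (t ≫ s)

/-- `f` is the product of `k` pairings along the perfect matching `x` of the `2 k` factors: a
permutation of the factors which transforms `x` into the standard matching, followed by the tensor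
power of the pairing. -/
def IsAlong {M L : C} (b : M ⊗ M ⟶ L) {k : ℕ} (x : Matching k) (f : tp M (2 * k) ⟶ tp L k) :
    Prop :=
  ∃ (π : Perm (Fin (2 * k))) (s : tp M (2 * k) ⟶ tp M (2 * k)), Permutes M (2 * k) π s ∧
    x.1 = π⁻¹ * standard (2 * k) * π ∧ f = s ≫ power b k

end

section

variable {C : Type u} [Category.{v} C] [MonoidalCategory C] [SymmetricCategory C]
  [Preadditive C] [Linear ℚ C] [MonoidalPreadditive C] [MonoidalLinear ℚ C]
  [RightRigidCategory C] {K : Type w} [Field K]

/-- The products of `k` pairings along the matchings of `2 k` points are linearly dependent. -/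
def Dependent {M L : C} (b : M ⊗ M ⟶ L) (k : ℕ) : Prop :=
  ∃ f : Matching k → (tp M (2 * k) ⟶ tp L k), (∀ x, IsAlong b x (f x)) ∧
    ∃ c : Matching k → ℚ, c ≠ 0 ∧ ∑ x, c x • f x = 0

/-- The sum of the products of `k` pairings along all matchings of `2 k` points vanishes. -/
def SumVanishes {M L : C} (b : M ⊗ M ⟶ L) (k : ℕ) : Prop :=
  ∃ f : Matching k → (tp M (2 * k) ⟶ tp L k), (∀ x, IsAlong b x (f x)) ∧ ∑ x, f x = 0

/-- The realisation of `M` is purely odd of dimension `2 n > 0`, and the realisation of `L` is purely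
even of dimension one. -/
structure Odd (R : SuperRealisation C K) (M L : C) (n : ℕ) : Prop where
  pos : 0 < n
  par_M : R.par M = -𝟙 _
  dim_M : finrank K (R.H.obj M) = 2 * n
  par_L : R.par L = 𝟙 _
  dim_L : finrank K (R.H.obj L) = 1

/-- The realisation of `M` is purely even of dimension `b > 0`, and the realisation of `L` is purely
even of dimension one. -/
structure Even (R : SuperRealisation C K) (M L : C) (b : ℕ) : Prop where
  pos : 0 < b
  par_M : R.par M = 𝟙 _
  dim_M : finrank K (R.H.obj M) = b
  par_L : R.par L = 𝟙 _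
  dim_L : finrank K (R.H.obj L) = 1

end

/-! ### Auxiliary statements -/

section

variable {C : Type u} [Category.{v} C] [MonoidalCategory C] [SymmetricCategory C]
  [Preadditive C] [Linear ℚ C] [MonoidalPreadditive C] [MonoidalLinear ℚ C]
  [RightRigidCategory C] {K : Type w} [Field K]

/-- The action of the symmetric group. -/
noncomputable def act (R : SuperRealisation C K) (hU : UnitQ C) (M : C) (m : ℕ) :
    Perm (Fin m) →* End (tp M m) :=
  (Pool.Agent.V8H87.GG.tower R hU M).th m

lemma act_swap (R : SuperRealisation C K) (hU : UnitQ C) (M : C) (m : ℕ) :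
    act R hU M (m + 2) (swap 0 1) = sw (tp M m) M :=
  (Pool.Agent.V8H87.GG.tower R hU M).th_swap_one m

lemma act_shift (R : SuperRealisation C K) (hU : UnitQ C) (M : C) (m : ℕ) (σ : Perm (Fin m)) :
    act R hU M (m + 1) (shift σ) = (act R hU M m σ : tp M m ⟶ tp M m) ▷ M :=
  (Pool.Agent.V8H87.GG.tower R hU M).th_ex σ

lemma act_mul (R : SuperRealisation C K) (hU : UnitQ C) (M : C) (m : ℕ) (σ τ : Perm (Fin m)) :
    (act R hU M m (σ * τ) : tp M m ⟶ tp M m) = (act R hU M m τ : tp M m ⟶ tp M m) ≫
      (act R hU M m σ : tp M m ⟶ tp M m) :=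
  (map_mul (act R hU M m) σ τ)

lemma permutes_act (R : SuperRealisation C K) (hU : UnitQ C) (M : C) :
    ∀ (m : ℕ) (σ : Perm (Fin m)), Permutes M m σ (act R hU M m σ)
  | 0, σ => by
    have h1 : σ = 1 := by
      ext i
      exact i.elim0
    have h2 : (act R hU M 0 σ : tp M 0 ⟶ tp M 0) = 𝟙 _ := by
      rw [h1]
      exact map_one (act R hU M 0)
    rw [h2, h1]
    exact Permutes.one 0
  | m + 1, σ => by
    have hlift : ∀ e : Perm (Fin m), Permutes M (m + 1) (shift e) (act R hU M (m + 1) (shift e)) := by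
      intro e
      rw [act_shift]
      exact Permutes.lift m e _ (permutes_act R hU M m e)
    have hcomp : ∀ σ τ : Perm (Fin (m + 1)), Permutes M (m + 1) σ (act R hU M (m + 1) σ) →
        Permutes M (m + 1) τ (act R hU M (m + 1) τ) →
        Permutes M (m + 1) (σ * τ) (act R hU M (m + 1) (σ * τ)) := by
      intro σ τ h1 h2
      have h3 := Permutes.comp _ _ _ _ _ h1 h2
      rw [← act_mul] at h3
      exact h3
    have hsw : ∀ p : Fin (m + 1), Permutes M (m + 1) (swap 0 p) (act R hU M (m + 1) (swap 0 p)) := by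
      intro p
      refine Fin.cases ?_ (fun q => ?_) p
      · have h2 : (act R hU M (m + 1) (swap 0 0) : tp M (m + 1) ⟶ tp M (m + 1)) = 𝟙 _ := by
          rw [swap_self]
          exact map_one (act R hU M (m + 1))
        rw [h2, swap_self]
        exact Permutes.one _
      · rcases m with - | m
        · exact q.elim0
        · rw [Pool.Agent.V8H87.GG.TT.swap_conj q]
          refine hcomp _ _ (hcomp _ _ (hlift _) ?_) (hlift _)
          rw [act_swap]
          exact Permutes.last m
    rw [Pool.Agent.V8H87.GG.eq_swap_mul σ]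
    exact hcomp _ _ (hsw _) (hlift _)

lemma permutes_iff (R : SuperRealisation C K) (hU : UnitQ C) (M : C) {m : ℕ} {σ : Perm (Fin m)}
    {s : tp M m ⟶ tp M m} : Permutes M m σ s ↔ s = act R hU M m σ := by
  constructor
  · intro h
    induction h with
    | one m => exact (map_one (act R hU M m)).symm
    | last m => exact (act_swap R hU M m).symm
    | lift m σ s _ ih => rw [act_shift, ih]
    | comp m σ τ s t _ _ ih1 ih2 => rw [act_mul, ih1, ih2]
  · rintro rfl
    exact permutes_act R hU M m σ

lemma standard_eq : ∀ m : ℕ, standard m = Pool.Agent.V8H15.BT.std m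
  | 0 => rfl
  | 1 => rfl
  | m + 2 => by
    rw [standard, standard_eq m]
    rfl

lemma exists_perm {k : ℕ} (x : Matching k) : ∃ π : Perm (Fin (2 * k)),
    x.1 = π⁻¹ * standard (2 * k) * π := by
  obtain ⟨π, hπ⟩ := Pool.Agent.V8H15.BT.exists_conj (x := x.1) x.2
  refine ⟨π⁻¹, ?_⟩
  rw [inv_inv, standard_eq, hπ]

/-- The product of `k` pairings along a perfect matching of the factors. -/
noncomputable def along (R : SuperRealisation C K) (hU : UnitQ C) {M L : C}
    (p : PerfectPairing M L) (k : ℕ) (x : Matching k) : tp M (2 * k) ⟶ tp L k :=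
  (act R hU M (2 * k) (Classical.choose (exists_perm x)) : tp M (2 * k) ⟶ tp M (2 * k)) ≫
    power p.b k

end

lemma standard_match (k : ℕ) : standard (2 * k) * standard (2 * k) = 1 ∧
    ∀ i, standard (2 * k) i ≠ i := by
  rw [standard_eq]
  exact Pool.Agent.V8H15.BT.std_match k

/-- the matching attached to a permutation -/
def toM {k : ℕ} (π : Perm (Fin (2 * k))) : Matching k :=
  ⟨π⁻¹ * standard (2 * k) * π, by
    have h := Pool.Agent.V8H15.BT.conj_match (x := standard (2 * k)) (standard_match k) π⁻¹
    rw [inv_inv] at h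
    exact h⟩

lemma toM_surj {k : ℕ} (x : Matching k) : ∃ π, toM π = x := by
  obtain ⟨π, hπ⟩ := exists_perm x
  exact ⟨π, Subtype.ext hπ.symm⟩

/-- the number of the permutations which give the matching -/
def mult {k : ℕ} (x : Matching k) : ℕ :=
  (Finset.univ.filter (fun π : Perm (Fin (2 * k)) => toM π = x)).card

lemma mult_pos {k : ℕ} (x : Matching k) : 0 < mult x := by
  obtain ⟨π, hπ⟩ := toM_surj x
  exact Finset.card_pos.2 ⟨π, Finset.mem_filter.2 ⟨Finset.mem_univ _, hπ⟩⟩

lemma sum_toM {k : ℕ} {V : Type*} [AddCommGroup V] (h : Matching k → V) :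
    ∑ π, h (toM π) = ∑ x, mult x • h x := by
  classical
  rw [Finset.sum_comp]
  refine Finset.sum_congr ?_ (fun x _ => ?_)
  · refine Finset.eq_univ_iff_forall.2 (fun x => ?_)
    obtain ⟨π, hπ⟩ := toM_surj x
    exact Finset.mem_image.2 ⟨π, Finset.mem_univ _, hπ⟩
  · rw [mult]

lemma mult_const {k : ℕ} (x : Matching k) : mult x = mult ⟨standard (2 * k), standard_match k⟩ := by
  obtain ⟨ρ, hρ⟩ := exists_perm x
  refine Finset.card_bij' (fun π _ => π * ρ⁻¹) (fun π _ => π * ρ) ?_ ?_ ?_ ?_
  · intro π hπ
    refine Finset.mem_filter.2 ⟨Finset.mem_univ _, Subtype.ext ?_⟩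
    have h1 : π⁻¹ * standard (2 * k) * π = ρ⁻¹ * standard (2 * k) * ρ := by
      rw [← hρ]
      exact congrArg Subtype.val (Finset.mem_filter.1 hπ).2
    show (π * ρ⁻¹)⁻¹ * standard (2 * k) * (π * ρ⁻¹) = standard (2 * k)
    calc (π * ρ⁻¹)⁻¹ * standard (2 * k) * (π * ρ⁻¹) =
        ρ * (π⁻¹ * standard (2 * k) * π) * ρ⁻¹ := by group
      _ = _ := by rw [h1]; group
  · intro π hπ
    refine Finset.mem_filter.2 ⟨Finset.mem_univ _, Subtype.ext ?_⟩
    have h1 : π⁻¹ * standard (2 * k) * π = standard (2 * k) :=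
      congrArg Subtype.val (Finset.mem_filter.1 hπ).2
    show (π * ρ)⁻¹ * standard (2 * k) * (π * ρ) = x.1
    rw [hρ]
    calc (π * ρ)⁻¹ * standard (2 * k) * (π * ρ) =
        ρ⁻¹ * (π⁻¹ * standard (2 * k) * π) * ρ := by group
      _ = _ := by rw [h1]
  · intro π _
    exact inv_mul_cancel_right _ _
  · intro π _
    exact mul_inv_cancel_right _ _

section

variable {C : Type u} [Category.{v} C] [MonoidalCategory C] [SymmetricCategory C]
  [Preadditive C] [Linear ℚ C] [MonoidalPreadditive C] [MonoidalLinear ℚ C]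
  [RightRigidCategory C] {K : Type w} [Field K]

open Pool.Agent.V8H15.BT Pool.Agent.V8H87.GG

/-- the pairing of the library -/
def pr {M L : C} (p : PerfectPairing M L) : Pool.Agent.V8H57.BT.Pairing M L where
  b := p.b
  c := p.c
  b_symm := p.b_symm
  c_symm := p.c_symm
  zig := p.zig

lemma power_eq {M L : C} (b : M ⊗ M ⟶ L) : ∀ k, power b k = Pool.Agent.V8H40.BT.bpow b k
  | 0 => rfl
  | k + 1 => by
    rw [power, power_eq b k]
    rfl

variable (R : SuperRealisation C K) (hU : UnitQ C) {M L : C} (p : PerfectPairing M L)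
  (hL : trq hU L (1 : End L) = 1) (hδ : trq hU M (1 : End M) ≠ 0)

/-- the Brauer tower -/
noncomputable abbrev bra : Bra (tower R hU M) := Pool.Agent.V8H57.BT.braOf (pr p) R hU hL

include hδ in
lemma F_zero_iff (k : ℕ) (x : End (tp M (2 * k))) : (bra R hU p hL).G (2 * k) * x = 0 ↔
    (x : tp M (2 * k) ⟶ tp M (2 * k)) ≫ power p.b k = 0 := by
  rw [Bra.G_two, power_eq]
  exact Pool.Agent.V8H40.BT.F_mul_eq_zero_iff (bra R hU p hL) p.b p.c (fun n => rfl) p.b_symm p.zig
    hδ k x

include hL hδ in
lemma act_cent {k : ℕ} {t : Perm (Fin (2 * k))} (ht : t * standard (2 * k) = standard (2 * k) * t) :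
    (act R hU M (2 * k) t : tp M (2 * k) ⟶ tp M (2 * k)) ≫ power p.b k = power p.b k := by
  rw [standard_eq] at ht
  have h1 := Bra.G_cent (B := bra R hU p hL) k t ht
  have h2 : (bra R hU p hL).G (2 * k) * ((tower R hU M).th (2 * k) t - 1) = 0 := by
    rw [mul_sub, h1, mul_one, sub_self]
  have h3 := (F_zero_iff R hU p hL hδ k _).1 h2
  have h4 : (((tower R hU M).th (2 * k) t : tp M (2 * k) ⟶ tp M (2 * k)) - 𝟙 _) ≫ power p.b k = 0 :=
    h3
  rw [Preadditive.sub_comp, Category.id_comp, sub_eq_zero] at h4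
  exact h4

include hL hδ in
lemma along_eq {k : ℕ} (x : Matching k) (π : Perm (Fin (2 * k)))
    (h : x.1 = π⁻¹ * standard (2 * k) * π) : along R hU p k x =
      (act R hU M (2 * k) π : tp M (2 * k) ⟶ tp M (2 * k)) ≫ power p.b k := by
  have h1 := Classical.choose_spec (exists_perm x)
  rw [along]
  set ρ := Classical.choose (exists_perm x) with hρ
  have h2 : (ρ * π⁻¹) * standard (2 * k) = standard (2 * k) * (ρ * π⁻¹) := by
    rw [h] at h1
    calc (ρ * π⁻¹) * standard (2 * k) = ρ * (π⁻¹ * standard (2 * k) * π) * π⁻¹ := by group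
      _ = _ := by rw [h1]; group
  have h3 := act_cent R hU p hL hδ h2
  have h4 : (act R hU M (2 * k) ρ : tp M (2 * k) ⟶ tp M (2 * k)) =
      (act R hU M (2 * k) π : tp M (2 * k) ⟶ tp M (2 * k)) ≫
        (act R hU M (2 * k) (ρ * π⁻¹) : tp M (2 * k) ⟶ tp M (2 * k)) := by
    have h5 : act R hU M (2 * k) ρ = act R hU M (2 * k) (ρ * π⁻¹) * act R hU M (2 * k) π := by
      rw [← map_mul, inv_mul_cancel_right]
    exact h5
  rw [h4, Category.assoc, h3]

include hL hδ in
lemma along_toM {k : ℕ} (π : Perm (Fin (2 * k))) : along R hU p k (toM π) =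
    (act R hU M (2 * k) π : tp M (2 * k) ⟶ tp M (2 * k)) ≫ power p.b k :=
  along_eq R hU p hL hδ _ π rfl

include hδ in
lemma rel_iff {k : ℕ} (a : Perm (Fin (2 * k)) → ℚ) : (bra R hU p hL).Rel (2 * k) a ↔
    ∑ x : Matching k, (mult x * a x.1) • along R hU p k x = 0 := by
  have h1 : (bra R hU p hL).Rel (2 * k) a ↔ (bra R hU p hL).G (2 * k) *
      (∑ π : Perm (Fin (2 * k)), a (toM π).1 • (tower R hU M).th (2 * k) π) = 0 := by
    rw [Bra.Rel, Finset.mul_sum]
    simp only [mul_smul_comm]
    have : ∀ π : Perm (Fin (2 * k)), (toM π).1 = π⁻¹ * std (2 * k) * π := by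
      intro π
      rw [← standard_eq]
      rfl
    simp only [this]
  rw [h1, F_zero_iff R hU p hL hδ]
  have h2 : ((∑ π : Perm (Fin (2 * k)), a (toM π).1 • (tower R hU M).th (2 * k) π :
      End (tp M (2 * k))) : tp M (2 * k) ⟶ tp M (2 * k)) ≫ power p.b k =
      ∑ π : Perm (Fin (2 * k)), a (toM π).1 • along R hU p k (toM π) := by
    refine (Preadditive.sum_comp (P := tp M (2 * k)) (Q := tp M (2 * k)) _ _ _).trans ?_
    refine Finset.sum_congr rfl (fun π _ => ?_)
    rw [along_toM R hU p hL hδ]
    exact Linear.smul_comp _ _ _ _ _ _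
  rw [h2, sum_toM (fun x : Matching k => a x.1 • along R hU p k x)]
  simp only [← Nat.cast_smul_eq_nsmul ℚ, smul_smul]

include hδ in
lemma noRel_iff {k : ℕ} : (bra R hU p hL).NoRel (2 * k) ↔
    LinearIndependent ℚ (along R hU p k) := by
  classical
  rw [Fintype.linearIndependent_iff]
  constructor
  · intro h g hg x
    have h1 := h (fun y => if hy : y * y = 1 ∧ ∀ i, y i ≠ i then
      ((mult (⟨y, hy⟩ : Matching k) : ℚ)⁻¹ * g ⟨y, hy⟩) else 0) (by
        rw [rel_iff R hU p hL hδ, ← hg]
        refine Finset.sum_congr rfl (fun x _ => ?_)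
        rw [dif_pos x.2, mul_inv_cancel_left₀]
        exact_mod_cast (mult_pos x).ne') x.1 x.2
    rw [dif_pos x.2] at h1
    rcases mul_eq_zero.1 h1 with h2 | h2
    · exact absurd (inv_eq_zero.1 h2) (by exact_mod_cast (mult_pos x).ne')
    · exact h2
  · intro h a ha x hx
    rw [rel_iff R hU p hL hδ] at ha
    have h1 := h (fun x => mult x * a x.1) ha ⟨x, hx⟩
    rcases mul_eq_zero.1 h1 with h2 | h2
    · exact absurd h2 (by exact_mod_cast (mult_pos _).ne')
    · exact h2

include hδ in
lemma mean_iff {k : ℕ} : (bra R hU p hL).G (2 * k) * P (tower R hU M) (2 * k) = 0 ↔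
    ∑ x : Matching k, along R hU p k x = 0 := by
  have h1 : (bra R hU p hL).G (2 * k) * P (tower R hU M) (2 * k) = 0 ↔
      (bra R hU p hL).Rel (2 * k) (fun _ => 1) := by
    rw [Bra.Rel, P, Finset.mul_sum]
    simp only [one_smul]
  rw [h1, rel_iff R hU p hL hδ]
  simp only [mul_one, mult_const]
  rw [← Finset.smul_sum, smul_eq_zero]
  constructor
  · rintro (h | h)
    · exact absurd h (by exact_mod_cast (mult_pos _).ne')
    · exact h
  · exact Or.inr

include hδ hL in
lemma isAlong_iff {k : ℕ} (x : Matching k) (f : tp M (2 * k) ⟶ tp L k) :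
    IsAlong p.b x f ↔ f = along R hU p k x := by
  constructor
  · rintro ⟨π, s, hs, hx, rfl⟩
    rw [along_eq R hU p hL hδ x π hx, (permutes_iff R hU M).1 hs]
  · rintro rfl
    exact ⟨_, _, permutes_act R hU M _ _, Classical.choose_spec (exists_perm x), rfl⟩

include hδ in
lemma dependent_iff {k : ℕ} : Dependent p.b k ↔ ¬ (bra R hU p hL).NoRel (2 * k) := by
  rw [noRel_iff R hU p hL hδ]
  constructor
  · rintro ⟨f, hf, c, hc, hs⟩ hli
    have h1 : f = along R hU p k := funext (fun x => (isAlong_iff R hU p hL hδ x _).1 (hf x))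
    rw [Fintype.linearIndependent_iff] at hli
    rw [h1] at hs
    exact hc (funext (hli c hs))
  · intro h
    rw [Fintype.not_linearIndependent_iff] at h
    obtain ⟨g, hg, i, hi⟩ := h
    exact ⟨along R hU p k, fun x => (isAlong_iff R hU p hL hδ x _).2 rfl, g,
      fun h0 => hi (by rw [h0]; rfl), hg⟩

include hδ hL in
lemma sumVanishes_iff {k : ℕ} : SumVanishes p.b k ↔ ∑ x : Matching k, along R hU p k x = 0 := by
  constructor
  · rintro ⟨f, hf, hs⟩
    have h1 : f = along R hU p k := funext (fun x => (isAlong_iff R hU p hL hδ x _).1 (hf x))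
    rw [h1] at hs
    exact hs
  · intro h
    exact ⟨along R hU p k, fun x => (isAlong_iff R hU p hL hδ x _).2 rfl, h⟩

include R hU hδ hL in
lemma exists_unique_along {k : ℕ} (x : Matching k) : ∃! f, IsAlong p.b x f :=
  ⟨along R hU p k x, (isAlong_iff R hU p hL hδ x _).2 rfl,
    fun f hf => (isAlong_iff R hU p hL hδ x f).1 hf⟩

end

/-- **The zero-one law for the relations between products of pairings.** Let `M` be an object with a
perfect symmetric pairing with values in an object `L` with purely even realisation of dimension one.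
If the realisation of `M` is purely odd of dimension `2 n > 0`, then for each perfect matching of
`2 k` points there is exactly one product of `k` pairings along it, and the following are equivalent:
`M` is Kimura finite-dimensional; for some `k < 3 (n + 2)` the products of `k` pairings along the
perfect matchings of `2 k` points are linearly dependent; this is the case for `k = n + 1`; the sum
of the products of `n + 1` pairings along all matchings of `2 (n + 1)` points vanishes.
If the realisation of `M` is purely even of dimension `b > 0`, the following are equivalent: `M` is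
Kimura finite-dimensional; for some `k < 2 (b + 3)` the products of `k` pairings are linearly
dependent; this is the case for `k = b + 1`. -/
theorem result {C : Type u} [Category.{v} C] [Preadditive C] [Linear ℚ C] [MonoidalCategory C]
    [MonoidalPreadditive C] [MonoidalLinear ℚ C] [SymmetricCategory C] [RightRigidCategory C]
    [IsIdempotentComplete C] (hU : UnitQ C) {K : Type w} [Field K] (R : SuperRealisation C K)
    {M L : C} (p : PerfectPairing M L) :
    (∀ n, Odd R M L n → (∀ k (x : Matching k), ∃! f, IsAlong p.b x f) ∧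
      [IsKimuraFinite M, ∃ k < 3 * (n + 2), Dependent p.b k, Dependent p.b (n + 1),
        SumVanishes p.b (n + 1)].TFAE) ∧
    ∀ b, Even R M L b → (∀ k (x : Matching k), ∃! f, IsAlong p.b x f) ∧
      [IsKimuraFinite M, ∃ k < 2 * (b + 3), Dependent p.b k, Dependent p.b (b + 1)].TFAE := by
  have hnt : Nontrivial (End (tp M 0)) := ⟨⟨1, 0, hU.ne⟩⟩
  refine ⟨?_, ?_⟩
  · rintro n ⟨hn, hM, hMn, hL, hL1⟩
    have hn0 : (n : ℚ) ≠ 0 := by exact_mod_cast hn.ne'
    have hLt : trq hU L (1 : End L) = 1 := by
      rw [trq_one R hU 1 (by rw [hL]; simp), hL1]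
      norm_num
    have hMt : trq hU M (1 : End M) = -(2 * n) := by
      rw [trq_one R hU (-1) (by rw [hM]; simp), hMn]
      push_cast
      ring
    have hδ : trq hU M (1 : End M) ≠ 0 := by
      rw [hMt]
      intro h
      apply hn0
      linarith
    have hkim : IsKimuraFinite M ↔
        ∃ N, Pool.Agent.V8H15.BT.P (Pool.Agent.V8H87.GG.tower R hU M) N = 0 := by
      rw [Pool.Agent.V8H76.BT.kimura_odd_iff R hU hM]
      refine exists_congr (fun N => ?_)
      rw [Pool.Agent.V8H76.BT.powerVanishes_one_iff R hU]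
      rfl
    refine ⟨fun k x => exists_unique_along R hU p hLt hδ x, ?_⟩
    tfae_have 1 → 4 := by
      intro h
      rw [sumVanishes_iff R hU p hLt hδ, ← mean_iff R hU p hLt hδ]
      exact Pool.Agent.V8H15.BT.Bra.rel_of_vanish hMt (hkim.1 h)
    tfae_have 4 → 3 := by
      rintro ⟨f, hf, h⟩
      refine ⟨f, hf, fun _ => 1, fun h0 => ?_, by simpa using h⟩
      exact one_ne_zero (congrFun h0 ⟨standard (2 * (n + 1)), standard_match _⟩)
    tfae_have 3 → 2 := fun h => ⟨n + 1, by omega, h⟩
    tfae_have 2 → 1 := by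
      rintro ⟨k, hk, h⟩
      rw [dependent_iff R hU p hLt hδ] at h
      exact hkim.2 (Pool.Agent.V8H15.BT.Bra.vanish_of_rel hMt hk h)
    tfae_finish
  · rintro b ⟨hb, hM, hMb, hL, hL1⟩
    have hb0 : (b : ℚ) ≠ 0 := by exact_mod_cast hb.ne'
    have hLt : trq hU L (1 : End L) = 1 := by
      rw [trq_one R hU 1 (by rw [hL]; simp), hL1]
      norm_num
    have hMt : trq hU M (1 : End M) = b := by
      rw [trq_one R hU 1 (by rw [hM]; simp), hMb, one_mul]
    have hδ : trq hU M (1 : End M) ≠ 0 := by
      rw [hMt]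
      exact hb0
    have hkim : IsKimuraFinite M ↔
        ∃ N, Pool.Agent.V8H15.BT.Q (Pool.Agent.V8H87.GG.tower R hU M) N = 0 := by
      rw [Pool.Agent.V8H76.BT.kimura_even_iff R hU hM]
      exact exists_congr (fun N => Pool.Agent.V8H76.BT.powerVanishes_neg_one_iff R hU M N)
    refine ⟨fun k x => exists_unique_along R hU p hLt hδ x, ?_⟩
    tfae_have 1 → 3 := by
      intro h
      rw [dependent_iff R hU p hLt hδ]
      have h1 := Pool.Agent.V8H40.BT.Q_descent hMt (hkim.1 h)
      obtain ⟨a, ha, x, hx, hax⟩ :=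
        Pool.Agent.V8H40.BT.rel_of_alt (B := bra R hU p hLt) (k := b + 1) h1
      exact fun h2 => hax (h2 a ha x hx)
    tfae_have 3 → 2 := fun h => ⟨b + 1, by omega, h⟩
    tfae_have 2 → 1 := by
      rintro ⟨k, hk, h⟩
      rw [dependent_iff R hU p hLt hδ] at h
      obtain ⟨j, U, hU1, hU2⟩ := Pool.Agent.V8H15.BT.alt_of_rel hMt hk h
      exact hkim.2 ⟨j, Pool.Agent.V8H15.BT.bend hU1 hU2⟩
    tfae_finish

end Pool.Agent.Results.MP_868bb7_ag.ZeroOneLaw
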